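import Pool.Agent.Helper67.CP.Defs
import Pool.Agent.Helper67.CP.NonEq
import Pool.Agent.Helper67.CP.Dub
import Pool.Agent.Helper67.CP.Disc13b
import Pool.Agent.Helper67.CP.DDatVal

namespace Pool.Agent.Results.MP_ff3433_gt.BranchedNonUnique

open Pool.Agent.Helper67.CP

/-- Q1 is false: it is not true that for every combinatorial closed disc `K` (whose double is a
combinatorial sphere) and every branch structure `β` for `K` (also satisfying Dubejko's edge-path
condition) the packings of the sphere for the double of `K` with branch set `β ∪ β*` are
essentially unique. -/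
theorem result :
    ¬ ∀ (V : Type) [Fintype V] [DecidableEq V] (K : OComplex V) (β : Multiset V),
      K.IsClosedDisc → K.double.IsSphere → IsBranchStructure K β → K.Dubejko β →
        EssentiallyUnique K.double (K.doubleMul β) := by
  intro h
  obtain ⟨d⟩ := exists_dat
  obtain ⟨d'⟩ := exists_ddat
  obtain ⟨h1, h2, h3, h4⟩ := sphere_part d
  exact not_image d (h (Fin 13) K13 {11, 12} K13_disc double_sphere d'.branchStructure
    K13_dubejko _ _ h1 h2 h3 h4)

end Pool.Agent.Results.MP_ff3433_gt.BranchedNonUnique
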